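import Pool.Agent.ShghU.SpecU

/-!
# The base case: nine points of the cubic
-/

namespace ShghU

open MvPolynomial ShghE ShghR WeierstrassCurve WeierstrassCurve.Affine

theorem some_congr {k : Type*} [Field k] {a b a' b' : k} (ha : a = a') (hb : b = b')
    (h : (E0 k).Nonsingular a b) (h' : (E0 k).Nonsingular a' b') :
    (Point.some a b h : (E0 k).Point) = Point.some a' b' h' := by
  subst ha hb
  rfl

/-- A class on nine points which is nonnegative on the classes of positive expected dimension and satisfies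
`K · D ≤ 0` is nonnegative on all curves through nine sufficiently independent points of the cubic.
Proof: `ShghR.nef_spec` with `g = 0`, the tenth point `T = (0, 0)` and the tenth coefficient `0`
(`m' = Fin.snoc m 0`, `Z' = Fin.snoc Z ![0, 0]`, multiplicities `Fin.snoc μ 0`, `δ = f.totalDegree`, `B = δ₀ + 1`): `NumNef` for ten points follows from `NumNef9`
(drop the tenth multiplicity). `SpecZ` for `K = k`. -/
theorem ynef_base.{u} (d : ℝ) (m : Fin 9 → ℝ) (n : Fin 0 → ℝ) (hN : NumNef9 d m)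
    (hK : ∑ i, m i ≤ 3 * d) (δ₀ : ℕ) : YNef.{u} 0 d m n δ₀ := by
  refine ⟨δ₀ + 1, ?_⟩
  intro F k _ _ _ _ h2 Z hZ P _ f μ ν hf hδ hμ _
  classical
  obtain ⟨hns, hT, hI⟩ := hZ k
  obtain ⟨CD⟩ := ShghE.exists_curveData (k := k) h2
  have hTe : CD.E.T = (Point.some 0 0 hT : (E0 k).Point) := CD.T_eq
  let Z' : Fin 10 → Fin 2 → k := Fin.snoc (fun i j => algebraMap F k (Z i j)) ![0, 0]
  have hZc : ∀ i : Fin 9, Z' i.castSucc = fun j => algebraMap F k (Z i j) := fun i =>
    Fin.snoc_castSucc (α := fun _ : Fin 10 => Fin 2 → k) _ _ i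
  have hZl : Z' (Fin.last 9) = ![0, 0] :=
    Fin.snoc_last (α := fun _ : Fin 10 => Fin 2 → k) _ _
  have hZ' : ∀ i, (E0 k).Nonsingular (Z' i 0) (Z' i 1) := by
    intro i
    refine Fin.lastCases ?_ (fun i => ?_) i
    · rw [hZl]
      exact hT
    · rw [hZc]
      exact hns i
  let m' : Fin 10 → ℝ := Fin.snoc m (0 : ℝ)
  let μ' : Fin 10 → ℕ := Fin.snoc μ 0
  have hmc : ∀ i : Fin 9, m' i.castSucc = m i := fun i =>
    Fin.snoc_castSucc (α := fun _ : Fin 10 => ℝ) _ _ i
  have hml : m' (Fin.last 9) = 0 := Fin.snoc_last (α := fun _ : Fin 10 => ℝ) _ _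
  have hμc : ∀ i : Fin 9, μ' i.castSucc = μ i := fun i =>
    Fin.snoc_castSucc (α := fun _ : Fin 10 => ℕ) _ _ i
  have hμl : μ' (Fin.last 9) = 0 := Fin.snoc_last (α := fun _ : Fin 10 => ℕ) _ _
  have key := ShghR.nef_spec (k := k) h2 CD
    (fun i => (Point.some _ _ (hns i) : (E0 k).Point)) 0 (δ₀ + 1) (by rw [hTe]; exact hI) Z' hZ'
    (fun i => some_congr (by rw [hZc]) (by rw [hZc]) _ _)
    (by
      rw [hTe]
      simp only [Nat.zero_mul, Nat.cast_zero, zero_smul, add_zero]
      exact some_congr (by rw [hZl]; rfl) (by rw [hZl]; rfl) _ _)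
    d m' (by
      intro i
      refine Fin.lastCases ?_ (fun i => ?_) i
      · rw [hml]
      · rw [hmc]
        exact hN.1 i)
    (by
      rw [Fin.sum_univ_castSucc, hml, add_zero, Finset.sum_congr rfl fun i _ => hmc i]
      exact hK)
    (by
      intro a ν' hν'
      rw [Fin.sum_univ_castSucc] at hν' ⊢
      rw [hml, zero_mul, add_zero, Finset.sum_congr rfl fun i _ => by rw [hmc i]]
      exact hN.2 a (fun i => ν' i.castSucc) (lt_of_le_of_lt (Nat.le_add_right _ _) hν'))
    f hf f.totalDegree le_rfl (by omega) μ' (by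
      intro i
      refine Fin.lastCases ?_ (fun i => ?_) i
      · rw [hμl, pow_zero, Ideal.one_eq_top]
        exact Submodule.mem_top
      · rw [hμc, hZc]
        exact hμ i)
  rw [Fin.sum_univ_castSucc, hml, zero_mul, add_zero,
    Finset.sum_congr rfl fun i _ => by rw [hmc i, hμc i]] at key
  simpa using key

end ShghU
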