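import Pool.Agent.ShghU.MainU

/-!
# Unfolding in all directions: real multiplicities
-/

namespace ShghU

open MvPolynomial ShghE ShghR ShghT

/-- `λ_e(n) Ξ - n ν` is at least the minimum of its values at the two neighbouring even multiples of `e`: for
`e > 0`, `n ≥ 0` there is a natural number `q` with `2 q² e Ξ - 2 q e ν ≤ λ_e(n) Ξ - n ν`. (On the interval
`2 j e ≤ n ≤ 2 (j + 1) e`, `j = ⌊n / (2 e)⌋₊`, both sides are linear in `n`; `n = 2 e (j + t)`, `0 ≤ t ≤ 1`,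
`λ_e(n) = (1 - t) 2 j² e + t 2 (j + 1)² e`.) -/
theorem lamR_min (e n Ξ ν : ℝ) (he : 0 < e) (hn : 0 ≤ n) :
    ∃ q : ℕ, 2 * (q : ℝ) ^ 2 * e * Ξ - 2 * q * e * ν ≤ lamR e n * Ξ - n * ν := by
  set j : ℕ := ⌊n / (2 * e)⌋₊ with hj
  have h2e : 0 < 2 * e := by linarith
  have h1 : (j : ℝ) * (2 * e) ≤ n := by
    have h := Nat.floor_le (div_nonneg hn h2e.le)
    rw [← hj] at h
    rwa [le_div_iff₀ h2e] at h
  have h2 : n < ((j : ℝ) + 1) * (2 * e) := by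
    have h := Nat.lt_floor_add_one (n / (2 * e))
    rw [← hj] at h
    rwa [div_lt_iff₀ h2e] at h
  have hl : lamR e n = (2 * (j : ℝ) + 1) * n - 2 * (j : ℝ) * ((j : ℝ) + 1) * e := rfl
  by_contra hcon
  push Not at hcon
  have ha := hcon j
  have hb := hcon (j + 1)
  push_cast at hb
  rw [hl] at ha hb
  have h3 : 0 < (((j : ℝ) + 1) * (2 * e) - n) *
      (2 * (j : ℝ) ^ 2 * e * Ξ - 2 * (j : ℝ) * e * ν -
        (((2 * (j : ℝ) + 1) * n - 2 * (j : ℝ) * ((j : ℝ) + 1) * e) * Ξ - n * ν)) :=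
    mul_pos (by linarith) (by linarith)
  have h4 : 0 ≤ (n - (j : ℝ) * (2 * e)) *
      (2 * ((j : ℝ) + 1) ^ 2 * e * Ξ - 2 * ((j : ℝ) + 1) * e * ν -
        (((2 * (j : ℝ) + 1) * n - 2 * (j : ℝ) * ((j : ℝ) + 1) * e) * Ξ - n * ν)) :=
    mul_nonneg (by linarith) (by linarith)
  have h5 : (((j : ℝ) + 1) * (2 * e) - n) *
      (2 * (j : ℝ) ^ 2 * e * Ξ - 2 * (j : ℝ) * e * ν -
        (((2 * (j : ℝ) + 1) * n - 2 * (j : ℝ) * ((j : ℝ) + 1) * e) * Ξ - n * ν)) +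
      (n - (j : ℝ) * (2 * e)) *
      (2 * ((j : ℝ) + 1) ^ 2 * e * Ξ - 2 * ((j : ℝ) + 1) * e * ν -
        (((2 * (j : ℝ) + 1) * n - 2 * (j : ℝ) * ((j : ℝ) + 1) * e) * Ξ - n * ν)) = 0 := by
    ring
  linarith

/-- `n² ≤ 2 e λ_e(n)`: the difference is `(n - 2 j e)(2 (j + 1) e - n)`. -/
theorem sq_le_lamR (e n : ℝ) (he : 0 < e) (hn : 0 ≤ n) : n ^ 2 ≤ 2 * e * lamR e n := by
  set j : ℕ := ⌊n / (2 * e)⌋₊ with hj
  have h2e : 0 < 2 * e := by linarith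
  have h1 : (j : ℝ) * (2 * e) ≤ n := by
    have h := Nat.floor_le (div_nonneg hn h2e.le)
    rw [← hj] at h
    rwa [le_div_iff₀ h2e] at h
  have h2 : n < ((j : ℝ) + 1) * (2 * e) := by
    have h := Nat.lt_floor_add_one (n / (2 * e))
    rw [← hj] at h
    rwa [div_lt_iff₀ h2e] at h
  have hl : lamR e n = (2 * (j : ℝ) + 1) * n - 2 * (j : ℝ) * ((j : ℝ) + 1) * e := rfl
  rw [hl]
  have h3 : 0 ≤ (n - (j : ℝ) * (2 * e)) * (((j : ℝ) + 1) * (2 * e) - n) :=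
    mul_nonneg (by linarith) (by linarith)
  nlinarith [h3]

/-- **Nefness.** Let `(d'; m')` be the class of nine points with `d' = d - 3 Λ`, `m'_i = m_i - Λ`, `Λ = Σ λ_e(n_l)`,
`e = 3 d - Σ m_i > 0`. If `(d'; m')` is numerically nef then `(d; m; n)` is nonnegative on all curves through `9 + t` generic
points. Proof: `Ξ = 3 δ - Σ μ_i`, `δ = totalDegree f`; choose `q_l` by `lamR_min` for `Ξ` and `ν_l = μ (natAdd 9 l)`, apply `ynef_all` to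
`(d'; m')` and these `q_l` and `generic_of_ynef`. -/
theorem nefU.{u} {k : Type u} [Field k] [IsAlgClosed k] (h2 : (2 : k) ≠ 0) (t : ℕ)
    (P : Fin (9 + t) → Fin 2 → k)
    (hP : AlgebraicIndependent (⊥ : Subfield k) (fun ij : Fin (9 + t) × Fin 2 => P ij.1 ij.2))
    (d : ℝ) (m : Fin 9 → ℝ) (n : Fin t → ℝ) (hn : ∀ l, 0 ≤ n l) (e Λ : ℝ)
    (he : e = 3 * d - ∑ i, m i) (he0 : 0 < e) (hΛ : Λ = ∑ l, lamR e (n l))
    (hN : NumNef9 (d - 3 * Λ) (fun i => m i - Λ))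
    (f : MvPolynomial (Fin 2) k) (hf : f ≠ 0) (μ : Fin (9 + t) → ℕ)
    (hμ : ∀ i, f ∈ ptIdeal (P i 0) (P i 1) ^ μ i) :
    ∑ i, m i * μ (Fin.castAdd t i) + ∑ l, n l * μ (Fin.natAdd 9 l) ≤ d * f.totalDegree := by
  set Ξ : ℝ := 3 * f.totalDegree - ∑ i, (μ (Fin.castAdd t i) : ℝ) with hΞ
  choose q hq using fun l => lamR_min e (n l) Ξ (μ (Fin.natAdd 9 l)) he0 (hn l)
  have he' : e = 3 * (d - 3 * Λ) - ∑ i, (m i - Λ) := by
    rw [Finset.sum_sub_distrib, Finset.sum_const, Finset.card_univ, Fintype.card_fin, he]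
    simp only [nsmul_eq_mul]
    push_cast
    ring
  have hd' : 0 ≤ d - 3 * Λ := by
    have h := hN.2 1 (fun _ => 0) (by simp)
    simpa using h
  have h1 := ynef_all.{u} t (d - 3 * Λ) (fun i => m i - Λ) hN e he' he0.le q f.totalDegree
  have hS : 0 ≤ ∑ l, (q l : ℝ) ^ 2 := Finset.sum_nonneg fun l _ => sq_nonneg _
  have h2' := generic_of_ynef h2 t P hP _ (add_nonneg hd' (by positivity)) _ _ f.totalDegree h1 f hf
    le_rfl μ hμ
  set S : ℝ := ∑ l, (q l : ℝ) ^ 2 with hSd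
  have h3 : ∀ w : ℝ, ∑ i, (m i - Λ + w) * (μ (Fin.castAdd t i) : ℝ) =
      ∑ i, m i * (μ (Fin.castAdd t i) : ℝ) +
        (w - Λ) * ∑ i, (μ (Fin.castAdd t i) : ℝ) := by
    intro w
    rw [Finset.mul_sum, ← Finset.sum_add_distrib]
    refine Finset.sum_congr rfl fun i _ => ?_
    ring
  rw [h3] at h2'
  have h4 : ∑ l, (2 * (q l : ℝ) ^ 2 * e * Ξ - 2 * (q l : ℝ) * e * (μ (Fin.natAdd 9 l) : ℝ)) ≤
      ∑ l, (lamR e (n l) * Ξ - n l * (μ (Fin.natAdd 9 l) : ℝ)) :=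
    Finset.sum_le_sum fun l _ => hq l
  have h5 : ∑ l, (2 * (q l : ℝ) ^ 2 * e * Ξ - 2 * (q l : ℝ) * e * (μ (Fin.natAdd 9 l) : ℝ)) =
      2 * e * Ξ * S - ∑ l, 2 * (q l : ℝ) * e * (μ (Fin.natAdd 9 l) : ℝ) := by
    rw [Finset.sum_sub_distrib, hSd, Finset.mul_sum]
    congr 1
    refine Finset.sum_congr rfl fun l _ => ?_
    ring
  have h6 : ∑ l, (lamR e (n l) * Ξ - n l * (μ (Fin.natAdd 9 l) : ℝ)) =
      Λ * Ξ - ∑ l, n l * (μ (Fin.natAdd 9 l) : ℝ) := by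
    rw [Finset.sum_sub_distrib, hΛ, Finset.sum_mul]
  rw [h5, h6] at h4
  rw [hΞ] at h4
  nlinarith [h2', h4]

/-- A standard class of nine points is numerically nef. Proof: let `i₁, i₂, i₃` be three indices with the largest `m_i`
(`M₁ ≥ M₂ ≥ M₃ ≥` the others). For `(a; ν)` of positive expected dimension: `ν_i ≤ a`, `ν_i + ν_j ≤ 2 a`, `Σ ν_i ≤ 3 a`
(if `ν_i ≥ a + 1` then `ν_i (ν_i + 1) ≥ (a + 1)(a + 2)`; if `ν_i + ν_j ≥ 2 a + 1` then one of them is `≥ a + 1`; if `Σ ν_i ≥ 3 a + 1` then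
`Σ ν_i (ν_i + 1) ≥ (Σ ν_i)² / 9 + Σ ν_i ≥ (3 a + 1)² / 9 + 3 a + 1`, for `a ≥ 2` this is `≥ (a + 1)(a + 2)`; `a = 0, 1` directly by integrality:
`ν_i (ν_i + 1) ≥ 2 ν_i`, so `Σ ν_i (ν_i + 1) ≥ 2 (3 a + 1) ≥ (a + 1) (a + 2)` for `a = 0, 1`). Then
`Σ m_i ν_i ≤ M₃ Σ ν_i + (M₂ - M₃)(ν_{i₁} + ν_{i₂}) + (M₁ - M₂) ν_{i₁} ≤ a (M₁ + M₂ + M₃) ≤ a d`. -/
theorem numNef9_of_std (d : ℝ) (m : Fin 9 → ℝ) (hm : ∀ i, 0 ≤ m i)
    (hstd : ∀ i j l, i ≠ j → i ≠ l → j ≠ l → m i + m j + m l ≤ d) : NumNef9 d m := by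
  classical
  refine ⟨hm, fun a ν hν => ?_⟩
  have hle : ∀ i, ν i ≤ a := by
    intro i
    by_contra hcon
    push Not at hcon
    have h1 : ν i * (ν i + 1) ≤ ∑ i, ν i * (ν i + 1) :=
      Finset.single_le_sum (f := fun i => ν i * (ν i + 1)) (fun _ _ => Nat.zero_le _)
        (Finset.mem_univ i)
    have h2 : (a + 1) * (a + 2) ≤ ν i * (ν i + 1) := Nat.mul_le_mul hcon (by omega)
    omega
  have hS : ∑ i, ν i ≤ 3 * a := by
    by_contra hcon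
    push Not at hcon
    have h1 : (∑ i, ν i) ^ 2 ≤ 9 * ∑ i, ν i ^ 2 := by
      have h := sq_sum_le_card_mul_sum_sq (s := (Finset.univ : Finset (Fin 9)))
        (f := fun i => (ν i : ℤ))
      rw [Finset.card_univ, Fintype.card_fin] at h
      exact_mod_cast h
    have h2 : ∑ i, ν i * (ν i + 1) = ∑ i, ν i ^ 2 + ∑ i, ν i := by
      rw [← Finset.sum_add_distrib]
      refine Finset.sum_congr rfl fun i _ => ?_
      ring
    have h3 : 2 * ∑ i, ν i ≤ ∑ i, ν i * (ν i + 1) := by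
      rw [Finset.mul_sum]
      refine Finset.sum_le_sum fun i _ => ?_
      rcases Nat.eq_zero_or_pos (ν i) with h | h
      · simp [h]
      · nlinarith
    rcases Nat.lt_or_ge a 2 with ha | ha
    · have ha' : a = 0 ∨ a = 1 := by omega
      rcases ha' with rfl | rfl
      · omega
      · omega
    · nlinarith
  obtain ⟨i1, -, hi1⟩ := Finset.exists_max_image (Finset.univ : Finset (Fin 9)) m ⟨0, Finset.mem_univ 0⟩
  have hc1 : ((Finset.univ : Finset (Fin 9)).erase i1).card = 8 := by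
    rw [Finset.card_erase_of_mem (Finset.mem_univ _), Finset.card_univ, Fintype.card_fin]
  obtain ⟨i2, hi2m, hi2⟩ := Finset.exists_max_image ((Finset.univ : Finset (Fin 9)).erase i1) m
    (Finset.card_pos.1 (by omega))
  have hc2 : (((Finset.univ : Finset (Fin 9)).erase i1).erase i2).card = 7 := by
    rw [Finset.card_erase_of_mem hi2m, hc1]
  obtain ⟨i3, hi3m, hi3⟩ := Finset.exists_max_image
    (((Finset.univ : Finset (Fin 9)).erase i1).erase i2) m (Finset.card_pos.1 (by omega))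
  have h31 : m i3 ≤ m i1 := hi1 i3 (Finset.mem_univ _)
  have h32 : m i3 ≤ m i2 := hi2 i3 (Finset.mem_of_mem_erase hi3m)
  have hn12 : i1 ≠ i2 := (Finset.ne_of_mem_erase hi2m).symm
  have hn23 : i2 ≠ i3 := (Finset.ne_of_mem_erase hi3m).symm
  have hn13 : i1 ≠ i3 := (Finset.ne_of_mem_erase (Finset.mem_of_mem_erase hi3m)).symm
  have hd := hstd i1 i2 i3 hn12 hn13 hn23
  have hrest : ∑ i ∈ ((Finset.univ : Finset (Fin 9)).erase i1).erase i2, (m i - m i3) * (ν i : ℝ) ≤ 0 := by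
    refine Finset.sum_nonpos fun i hi => ?_
    exact mul_nonpos_of_nonpos_of_nonneg (by linarith [hi3 i hi]) (Nat.cast_nonneg _)
  have hsum : ∑ i, (m i - m i3) * (ν i : ℝ) ≤
      (m i1 - m i3) * (ν i1 : ℝ) + (m i2 - m i3) * (ν i2 : ℝ) := by
    rw [← Finset.add_sum_erase Finset.univ _ (Finset.mem_univ i1),
      ← Finset.add_sum_erase _ _ hi2m]
    linarith
  have hsplit : ∑ i, m i * (ν i : ℝ) = ∑ i, (m i - m i3) * (ν i : ℝ) + m i3 * ∑ i, (ν i : ℝ) := by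
    rw [Finset.mul_sum, ← Finset.sum_add_distrib]
    refine Finset.sum_congr rfl fun i _ => ?_
    ring
  rw [hsplit]
  have e1 : (ν i1 : ℝ) ≤ a := by exact_mod_cast hle i1
  have e2 : (ν i2 : ℝ) ≤ a := by exact_mod_cast hle i2
  have e3 : ∑ i, (ν i : ℝ) ≤ 3 * a := by exact_mod_cast hS
  have ha0 : (0 : ℝ) ≤ a := Nat.cast_nonneg _
  have f1 : (m i1 - m i3) * (ν i1 : ℝ) ≤ (m i1 - m i3) * a :=
    mul_le_mul_of_nonneg_left e1 (by linarith)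
  have f2 : (m i2 - m i3) * (ν i2 : ℝ) ≤ (m i2 - m i3) * a :=
    mul_le_mul_of_nonneg_left e2 (by linarith)
  have f3 : m i3 * ∑ i, (ν i : ℝ) ≤ m i3 * (3 * a) := mul_le_mul_of_nonneg_left e3 (hm i3)
  have f4 : (m i1 + m i2 + m i3) * a ≤ d * a := mul_le_mul_of_nonneg_right hd ha0
  linarith

end ShghU
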