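import Pool.Agent.ShghU.TransferU

/-!
# The degeneration with fixed further points
-/

namespace ShghU

open MvPolynomial ShghE ShghR WeierstrassCurve WeierstrassCurve.Affine

/-- Elements of the ideal of a point vanish at the point. -/
theorem CoreU_eval {F : Type*} [Field F] (Q : Fin 2 → F) {g : MvPolynomial (Fin 2) F}
    (h : g ∈ ptIdeal (Q 0) (Q 1)) : eval Q g = 0 := by
  have h1 : ptIdeal (Q 0) (Q 1) ≤ RingHom.ker (eval Q) := by
    rw [ptIdeal, Ideal.span_le]
    rintro _ (rfl | rfl)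
    · rw [SetLike.mem_coe, RingHom.mem_ker, map_sub, eval_X, eval_C, sub_self]
    · rw [SetLike.mem_coe, RingHom.mem_ker, map_sub, eval_X, eval_C, sub_self]
  exact RingHom.mem_ker.1 (h1 h)

theorem CoreU_some {k : Type*} [Field k] {a b a' b' : k} (h : (E0 k).Nonsingular a b)
    (h' : (E0 k).Nonsingular a' b') (ea : a = a') (eb : b = b') :
    (Point.some a b h : (E0 k).Point) = Point.some a' b' h' := by
  subst ea eb
  rfl

/-- A factor `G ^ w` with `G(Q) ≠ 0` does not change the multiplicity at `Q` (`ShghR.mem_split`: `G ^ w` is not in the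
ideal of the point, so its part is `0`). -/
theorem colonU {F : Type*} [Field F] (Q : Fin 2 → F) (hQ : eval Q (Geq F) ≠ 0) (w ν : ℕ)
    {g : MvPolynomial (Fin 2) F} (h : Geq F ^ w * g ∈ ptIdeal (Q 0) (Q 1) ^ ν) :
    g ∈ ptIdeal (Q 0) (Q 1) ^ ν := by
  obtain ⟨m1, m2, hm, h1, h2⟩ := mem_split (Q 0) (Q 1) h
  have h3 : m1 = 0 := by
    by_contra h4
    have h5 : Geq F ^ w ∈ ptIdeal (Q 0) (Q 1) := Ideal.pow_le_self h4 h1
    have h6 := CoreU_eval Q h5
    rw [map_pow] at h6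
    exact pow_ne_zero w hQ h6
  rw [h3, zero_add] at hm
  exact Ideal.pow_le_pow_right hm h2

/-- **The degeneration.** `F` algebraically closed; nine independent points `Z i` of the cubic and further points
`Q l` outside of the cubic, all with coordinates in `F`; one point `P` generic over `F`. Adapt the second half of the proof
of `ShghR.coreR` (only the last inequality is needed, no end point): `transferU` instead of `transfer_special0`,
`SpecZ` for `K = F` gives the points `p i` and `Indep p T B1` (`CD.T_eq`; `Point.some` with equal coordinates are equal);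
`colon` for the `Z i`, `colonU` for the `Q l`. `htors` needs `j ≤ B1`, and `sec_even` is used with the bound
`B1 ≥ 2 q (q + 1) + δ`; `w ≤ δ` (`g0.totalDegree + 3 w ≤ δ`). -/
theorem coreU.{u} {F k : Type u} [Field F] [IsAlgClosed F] [Field k] [Algebra F k]
    (h2 : (2 : F) ≠ 0) {r : ℕ} (Z : Fin 9 → Fin 2 → F) (B1 : ℕ) (hZ : SpecZ F B1 Z)
    (Q : Fin r → Fin 2 → F) (hQ : ∀ l, eval (Q l) (Geq F) ≠ 0) (P : Fin 2 → k)
    (hP : AlgebraicIndependent F P) (f : MvPolynomial (Fin 2) k) (hf : f ≠ 0) (δ : ℕ)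
    (hdeg : f.totalDegree ≤ δ) (μ : Fin 9 → ℕ) (ν : Fin r → ℕ) (τ : ℕ)
    (hμ : ∀ i, f ∈ ptIdeal (algebraMap F k (Z i 0)) (algebraMap F k (Z i 1)) ^ μ i)
    (hν : ∀ l, f ∈ ptIdeal (algebraMap F k (Q l 0)) (algebraMap F k (Q l 1)) ^ ν l)
    (hτ : f ∈ ptIdeal (P 0) (P 1) ^ τ) (q : ℕ) (hq : 1 ≤ q) (hB : 2 * q * (q + 1) + δ + 1 ≤ B1) :
    ∃ (w : ℕ) (g0 : MvPolynomial (Fin 2) F), g0 ≠ 0 ∧ g0.totalDegree + 3 * w ≤ δ ∧
      (∀ i, g0 ∈ ptIdeal (Z i 0) (Z i 1) ^ (μ i - w)) ∧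
      (∀ l, g0 ∈ ptIdeal (Q l 0) (Q l 1) ^ ν l) ∧
      2 * (q : ℤ) * τ ≤ 2 * (q : ℤ) ^ 2 * (3 * (δ : ℤ) - ∑ i, (μ i : ℤ)) + w := by
  classical
  obtain ⟨CD⟩ := exists_curveData2 (k := F) h2
  obtain ⟨hns, hT00, hI'⟩ := hZ F
  have hnsZ : ∀ i, (E0 F).Nonsingular (Z i 0) (Z i 1) := hns
  obtain ⟨p, hpdef⟩ : ∃ p : Fin 9 → (E0 F).Point,
    p = fun i => Point.some (Z i 0) (Z i 1) (hnsZ i) := ⟨_, rfl⟩
  have hTeq : (Point.some 0 0 hT00 : (E0 F).Point) = CD.E.T := by
    rw [CD.T_eq]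
  have hI : Indep p CD.E.T B1 := by
    rw [hpdef, ← hTeq]
    exact hI'
  have hBB : 1 ≤ B1 := by omega
  have hp0 := hI.ne_zero hBB
  have hpT := hI.ne_T hBB
  have hpi := hI.inj hBB
  have hT0 : CD.E.T ≠ 0 := by
    rw [CD.T_eq]
    exact Point.some_ne_zero _
  let n : CD.E.Twist :=
    { n := divf 9 (fun _ => -1) p
      fin := divf_fin _ _ _
      deg := by rw [divf_sum]; simp
      nT := divf_eq_zero _ _ _ hT0 (fun i => (hpT i).symm) }
  obtain ⟨v0, hv0, hsym⟩ := CD.E.exists_sym n h2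
  obtain ⟨F0, hF00, hF0d, hF0m, hF0Q, hF0J⟩ :=
    transferU Z Q P hP v0 δ μ ν τ ⟨f, hf, hdeg, hμ, hν, hτ⟩
  have hF0 : F0 ≠ 0 := by
    rintro rfl
    exact hF00 (Polynomial.coeff_zero 0)
  obtain ⟨w, gg, hgg, l0, hl0, hl0G⟩ := exists_w F0 hF0
  have hs : n.s = - ∑ i, p i := by
    change ∑ᶠ Q, divf 9 (fun _ => -1) p Q • Q = _
    rw [divf_sum_smul]
    simp
  -- ten points of the cubic (the last one is not used)
  obtain ⟨Y, hYdef⟩ : ∃ Y : Fin 10 → Fin 2 → F,
    Y = Fin.snoc (α := fun _ => Fin 2 → F) Z ![0, 0] := ⟨_, rfl⟩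
  have hY1 : ∀ i : Fin 9, Y i.castSucc = Z i := by
    intro i
    rw [hYdef]
    exact Fin.snoc_castSucc _ _ _
  have hY2 : Y (Fin.last 9) = ![0, 0] := by
    rw [hYdef]
    exact Fin.snoc_last _ _
  have hY : ∀ i, (E0 F).Nonsingular (Y i 0) (Y i 1) := by
    intro i
    refine Fin.lastCases ?_ (fun i => ?_) i
    · rw [hY2]
      exact hT00
    · rw [hY1]
      exact hnsZ i
  have hpY : ∀ i : Fin 9, p i = Point.some (Y i.castSucc 0) (Y i.castSucc 1)
      (hY i.castSucc) := by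
    intro i
    rw [hpdef]
    exact CoreU_some _ _ (by rw [hY1]) (by rw [hY1])
  obtain ⟨μ', hμ'def⟩ : ∃ μ' : Fin 10 → ℕ,
    μ' = Fin.snoc (α := fun _ => ℕ) μ 0 := ⟨_, rfl⟩
  have hμ1 : ∀ i : Fin 9, μ' i.castSucc = μ i := by
    intro i
    rw [hμ'def]
    exact Fin.snoc_castSucc (α := fun _ => ℕ) _ _ _
  have hF0m' : ∀ l, ∀ i : Fin 9,
      F0.coeff l ∈ ptIdeal (Y i.castSucc 0) (Y i.castSucc 1) ^ μ' i.castSucc := by
    intro l i
    rw [hY1, hμ1]
    exact hF0m l i
  have hc0 : F0.coeff 0 = Geq F ^ w * gg 0 := by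
    have h := hgg 0 (Nat.zero_le _)
    rwa [Nat.sub_zero] at h
  have hg0 : gg 0 ≠ 0 := by
    intro h
    rw [h, mul_zero] at hc0
    exact hF00 hc0
  have hdw : (gg 0).totalDegree + 3 * w ≤ δ := by
    have h := hF0d 0
    rw [hc0, totalDegree_Geq_pow_mul w hg0] at h
    omega
  have htors : ∀ j : ℕ, 1 ≤ j → j ≤ B1 → j • n.s ≠ 0 := by
    intro j hj hjB h
    have h1 : ∑ i, (j : ℤ) • p i = (0 : ℤ) • CD.E.T := by
      rw [hs, smul_neg, neg_eq_zero] at h
      rw [← Finset.smul_sum, zero_smul, ← h, natCast_zsmul]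
    have h3 := hI (fun _ => (j : ℤ)) (fun i => by
      rw [abs_of_nonneg (by positivity)]
      exact_mod_cast hjB) 0 h1
    have h4 : (j : ℤ) = 0 := congrFun h3 0
    omega
  refine ⟨w, gg 0, hg0, hdw, ?_, ?_, ?_⟩
  · intro i
    refine colon h2 (eq_of_nonsingular (hnsZ i)) w _ ?_
    rw [← hc0]
    exact hF0m 0 i
  · intro l
    refine colonU (Q l) (hQ l) w _ ?_
    rw [← hc0]
    exact hF0Q 0 l
  · -- the last inequality
    obtain ⟨ψ, U, hψ, hU, hflow⟩ := exists_flow (k := F) h2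
    have hOmI : Om F0 w = OmI δ F0 w := by
      have hV : PowerSeries.constantCoeff (U ^ δ) = 1 := by rw [map_pow, hU, one_pow]
      obtain ⟨-, -, h5⟩ := lead_transfer_shift (0 : Polynomial (K0 F)) ψ hψ (U ^ δ) hV (Om F0)
        (OmI δ F0) (hflow δ F0 hF0d) w (Om_lt h2 F0 w gg hgg) 0 0 le_rfl (fun i _ => by
          rw [Nat.zero_sub, pow_zero]
          exact one_dvd _) (fun i hi => absurd hi (Nat.not_lt_zero i))
      simpa [sub_eq_zero] using h5
    have hFne : Om F0 w ≠ 0 := by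
      intro h
      have h1 := Om_coeff F0 w (w - l0)
      rw [Om_eq h2 F0 w gg hgg] at h
      have h3 := congrArg (fun q => Polynomial.coeff q (w - l0)) h
      simp only [Polynomial.finsetSum_coeff, Polynomial.coeff_C_mul, Polynomial.coeff_X_pow,
        Polynomial.coeff_zero] at h3
      rw [Finset.sum_eq_single (w - l0)] at h3
      · rw [if_pos rfl, mul_one, show w - (w - l0) = l0 by omega,
          map_eq_zero_iff _ (IsFractionRing.injective (R0 F) (K0 F)), psi_eq_zero_iff] at h3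
        exact hl0G h3
      · intro j _ hj
        rw [if_neg (Ne.symm hj), mul_zero]
      · intro h4
        exact absurd (Finset.mem_range.2 (by omega)) h4
    have hnd : (Om F0 w).natDegree ≤ w := diag_natDegree _ _
    have hmain := CD.E.sec_even n hv0 hsym B1 htors q hq (by omega) hFne (by omega)
      (divf (3 * δ) (fun i => -(μ i : ℤ)) p) (divf_fin _ _ _)
      (divf_eq_zero _ _ _ hT0 (fun i => (hpT i).symm)) ?_ _
      (MultEnd_T CD v0 F0 _ hF0J w hFne)
    · rw [divf_sum, Finset.sum_neg_distrib, ← sub_eq_add_neg] at hmain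
      have h3 : ((Om F0 w).natDegree : ℤ) ≤ w := by exact_mod_cast hnd
      linarith
    · intro R
      have h : - (divf (3 * δ) (fun i => -(μ i : ℤ)) p R) ≤ CD.E.w n R (Om F0 w) := by
        by_cases hR : R = 0
        · rw [hR]
          unfold EField.w
          have e2 : n.n 0 = 9 := divf_zero _ _ _ hp0
          rw [e2, divf_zero _ _ _ hp0, hOmI]
          have h := OmI_inf CD δ F0 hF0d w (by rw [← hOmI]; exact hFne)
          linarith
        · have h := MultEnd_place CD n p hp0 hpi rfl Y hY hpY F0 δ μ' hF0m' w R hR hFne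
          simp only [hμ1] at h
          exact h
      linarith

end ShghU
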