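import Pool.Agent.ShghR.NefSpec
import Pool.Agent.ShghR.CoreR
import Pool.Agent.ShghT.SemiB

/-!
# Unfolding in several directions: definitions

Nine points `Z i` of the cubic `E : y² = x³ + x`, with coordinates in a field `F`, independent up to `B`; further points
`P l` generic over `F`.
-/

namespace ShghU

open MvPolynomial ShghE ShghR WeierstrassCurve WeierstrassCurve.Affine

/-- The nine points `Z i ∈ F²` lie on the cubic and are independent up to `B`, also modulo the 2-torsion point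
`(0, 0)`, in the group of points over every extension field `K` of `F`. -/
def SpecZ.{u} (F : Type u) [Field F] (B : ℕ) (Z : Fin 9 → Fin 2 → F) : Prop :=
  ∀ (K : Type u) [Field K] [DecidableEq K] [Algebra F K],
    ∃ (hZ : ∀ i, (E0 K).Nonsingular (algebraMap F K (Z i 0)) (algebraMap F K (Z i 1)))
      (hT : (E0 K).Nonsingular 0 0),
      Indep (fun i => (Point.some _ _ (hZ i) : (E0 K).Point)) (Point.some 0 0 hT) B

/-- The class `(d; m_0..m_8; n_0..n_(r-1))` is nonnegative on all curves of degree `≤ δ₀` in the following special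
position: nine points of the cubic with coordinates in `F`, sufficiently independent, and `r` points generic over `F`. -/
def YNef.{u} (r : ℕ) (d : ℝ) (m : Fin 9 → ℝ) (n : Fin r → ℝ) (δ₀ : ℕ) : Prop :=
  ∃ B : ℕ, ∀ (F k : Type u) [Field F] [Field k] [IsAlgClosed k] [Algebra F k], (2 : k) ≠ 0 →
    ∀ (Z : Fin 9 → Fin 2 → F), SpecZ F B Z →
    ∀ P : Fin r → Fin 2 → k, AlgebraicIndependent F (fun ij : Fin r × Fin 2 => P ij.1 ij.2) →
    ∀ (f : MvPolynomial (Fin 2) k) (μ : Fin 9 → ℕ) (ν : Fin r → ℕ), f ≠ 0 → f.totalDegree ≤ δ₀ →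
      (∀ i, f ∈ ptIdeal (algebraMap F k (Z i 0)) (algebraMap F k (Z i 1)) ^ μ i) →
      (∀ l, f ∈ ptIdeal (P l 0) (P l 1) ^ ν l) →
      ∑ i, m i * μ i + ∑ l, n l * ν l ≤ d * f.totalDegree

/-- All `m_i ≥ 0`, and `(d; m) · L ≥ 0` for all classes `L` of positive expected dimension (nine points). -/
def NumNef9 (d : ℝ) (m : Fin 9 → ℝ) : Prop :=
  (∀ i, 0 ≤ m i) ∧ ∀ (a : ℕ) (ν : Fin 9 → ℕ),
    ∑ i, ν i * (ν i + 1) < (a + 1) * (a + 2) → ∑ i, m i * ν i ≤ d * a

/-- `λ_e(n)`: linear on every interval `[2 j e, 2 (j + 1) e]`, with the value `2 j² e` at `n = 2 j e`. -/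
noncomputable def lamR (e n : ℝ) : ℝ :=
  (2 * (⌊n / (2 * e)⌋₊ : ℝ) + 1) * n - 2 * (⌊n / (2 * e)⌋₊ : ℝ) * ((⌊n / (2 * e)⌋₊ : ℝ) + 1) * e

end ShghU
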