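import Pool.Agent.ShghU.ConvU
import Pool.Agent.ShghV.Ram
import Pool.Agent.ShghT.Final

/-!
# SHGH for classes with large nine multiplicities, any number of points
-/

namespace ShghU

open MvPolynomial ShghE ShghR ShghT ShghV

/-- `λ_e(n)` for natural numbers: `(2 j + 1) n - 2 j (j + 1) e`, `j = n / (2 e)` (rounded down). -/
def lamN (e n : ℕ) : ℕ := (2 * (n / (2 * e)) + 1) * n - 2 * (n / (2 * e)) * (n / (2 * e) + 1) * e

/-- The subtraction is exact: with `j = n / (2 e)`, `2 j e ≤ n`, so `2 j (j + 1) e ≤ (j + 1) n ≤ (2 j + 1) n`.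
`Nat.floor_div_eq_div` for the floor. -/
theorem lamR_natCast (e n : ℕ) (he : 1 ≤ e) : lamR (e : ℝ) (n : ℝ) = (lamN e n : ℝ) := by
  have h1 : ⌊(n : ℝ) / (2 * (e : ℝ))⌋₊ = n / (2 * e) := by
    have h := Nat.floor_div_eq_div (K := ℝ) n (2 * e)
    rw [← h]
    push_cast
    rfl
  have h2 : n / (2 * e) * (2 * e) ≤ n := Nat.div_mul_le_self n (2 * e)
  unfold lamR lamN
  rw [h1]
  generalize n / (2 * e) = j at h2
  have h3 : 2 * j * (j + 1) * e ≤ (2 * j + 1) * n :=
    calc 2 * j * (j + 1) * e = (j + 1) * (j * (2 * e)) := by ring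
      _ ≤ (j + 1) * n := Nat.mul_le_mul_left _ h2
      _ ≤ (2 * j + 1) * n := Nat.mul_le_mul_right _ (by omega)
  rw [Nat.cast_sub h3]
  push_cast
  ring

/-- **SHGH, nine multiplicities at the points `0..8`.** Apply `ShghV.ram_generic` to `(δ; μ)`: the class `(δ + 3; μ_i + 1)` is
nef for generic points over every algebraically closed field of characteristic `≠ 2`, by `nefU` with `d = δ + 3`,
`m_i = μ_i + 1`, `n_l = ν_l + 1`, `e = 3 (δ + 3) - Σ (μ_i + 1) = 3 δ - Σ μ_i`, `Λ = Σ lamN e (ν_l + 1)` (`lamR_natCast`), and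
`numNef9_of_std` for `(d - 3 Λ; m_i - Λ)` (the sum of three of the `m_i - Λ` is `≤ δ + 3 - 3 Λ`). The inequality of `nefU` for
`f.totalDegree ≤ δ'` is cast to natural numbers. -/
theorem shgh9 {k : Type*} [Field k] (h2 : (2 : k) ≠ 0) (t : ℕ) (P : Fin (9 + t) → Fin 2 → k)
    (hP : AlgebraicIndependent (⊥ : Subfield k) (fun ij : Fin (9 + t) × Fin 2 => P ij.1 ij.2))
    (δ : ℕ) (μ : Fin (9 + t) → ℕ) (e : ℕ) (he : ∑ i, μ (Fin.castAdd t i) + e = 3 * δ) (he1 : 1 ≤ e)
    (hstd : ∀ i j l : Fin 9, i ≠ j → i ≠ l → j ≠ l →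
      μ (Fin.castAdd t i) + μ (Fin.castAdd t j) + μ (Fin.castAdd t l) ≤ δ)
    (hΛ : ∀ i, ∑ l, lamN e (μ (Fin.natAdd 9 l) + 1) ≤ μ (Fin.castAdd t i) + 1)
    (hbig : ∑ i, (μ i + 1) ^ 2 < (δ + 3) ^ 2) :
    Module.finrank k (LS δ μ P) + ∑ i, (μ i + 1).choose 2 = (δ + 2).choose 2 := by
  refine ram_generic δ μ hbig ?_ h2 P hP
  intro L _ _ hL Q hQ f δ' ν hf hδ' hν
  set Λ : ℕ := ∑ l, lamN e (μ (Fin.natAdd 9 l) + 1) with hΛd
  have heR : (e : ℝ) = 3 * ((δ : ℝ) + 3) - ∑ i : Fin 9, ((μ (Fin.castAdd t i) : ℝ) + 1) := by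
    have h : ((∑ i, μ (Fin.castAdd t i) + e : ℕ) : ℝ) = ((3 * δ : ℕ) : ℝ) := by rw [he]
    push_cast at h
    rw [Finset.sum_add_distrib]
    simp only [Finset.sum_const, Finset.card_univ, Fintype.card_fin, nsmul_eq_mul, mul_one]
    push_cast
    linarith
  have hΛR : (Λ : ℝ) = ∑ l : Fin t, lamR (e : ℝ) ((μ (Fin.natAdd 9 l) : ℝ) + 1) := by
    rw [hΛd]
    push_cast
    refine Finset.sum_congr rfl fun l _ => ?_
    rw [← lamR_natCast e _ he1]
    push_cast
    rfl
  have hN : NumNef9 ((δ : ℝ) + 3 - 3 * Λ)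
      (fun i : Fin 9 => (μ (Fin.castAdd t i) : ℝ) + 1 - Λ) := by
    refine numNef9_of_std _ _ (fun i => ?_) (fun i j l hij hil hjl => ?_)
    · have h := hΛ i
      have h' : (Λ : ℝ) ≤ (μ (Fin.castAdd t i) : ℝ) + 1 := by exact_mod_cast h
      linarith
    · have h := hstd i j l hij hil hjl
      have h' : (μ (Fin.castAdd t i) : ℝ) + μ (Fin.castAdd t j) + μ (Fin.castAdd t l) ≤ δ := by
        exact_mod_cast h
      linarith
  have h := nefU hL t Q hQ ((δ : ℝ) + 3) (fun i => (μ (Fin.castAdd t i) : ℝ) + 1)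
    (fun l => (μ (Fin.natAdd 9 l) : ℝ) + 1) (fun l => by positivity) (e : ℝ) (Λ : ℝ) heR
    (by exact_mod_cast he1) hΛR hN f hf ν hν
  have h3 : ((∑ i, (μ i + 1) * ν i : ℕ) : ℝ) ≤ (((δ + 3) * f.totalDegree : ℕ) : ℝ) := by
    rw [Fin.sum_univ_add]
    push_cast
    exact h
  have h4 : ∑ i, (μ i + 1) * ν i ≤ (δ + 3) * f.totalDegree := by exact_mod_cast h3
  exact h4.trans (Nat.mul_le_mul_left _ hδ')

/-- **SHGH for classes with nine large multiplicities.** Any nine points `c`; the points outside of the nine with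
multiplicity `0` are dropped: `S = range c ∪ {i | 1 ≤ μ i}`, an enumeration `φ : Fin (9 + t) → Fin s` of `S` starting with `c`
(see `ShghT.exists_enum`; `LS δ μ P = LS δ (μ ∘ φ) (P ∘ φ)` because the conditions at the other points are empty), `shgh9`. -/
theorem shghU {k : Type*} [Field k] (h2 : (2 : k) ≠ 0) {s : ℕ} (P : Fin s → Fin 2 → k)
    (hP : AlgebraicIndependent (⊥ : Subfield k) (fun ij : Fin s × Fin 2 => P ij.1 ij.2))
    (δ : ℕ) (μ : Fin s → ℕ) (c : Fin 9 → Fin s) (hc : Function.Injective c) (e : ℕ)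
    (he : ∑ i, μ (c i) + e = 3 * δ) (he1 : 1 ≤ e)
    (hstd : ∀ i j l : Fin 9, i ≠ j → i ≠ l → j ≠ l → μ (c i) + μ (c j) + μ (c l) ≤ δ)
    (hΛ : ∀ i, ∑ l ∈ (Finset.univ \ Finset.univ.image c).filter (fun l => 1 ≤ μ l),
      lamN e (μ l + 1) ≤ μ (c i) + 1)
    (hbig : ∑ i, (μ (c i) + 1) ^ 2 +
      ∑ l ∈ (Finset.univ \ Finset.univ.image c).filter (fun l => 1 ≤ μ l), (μ l + 1) ^ 2 <
        (δ + 3) ^ 2) :
    Module.finrank k (LS δ μ P) + ∑ i, (μ i + 1).choose 2 = (δ + 2).choose 2 := by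
  set T := (Finset.univ \ Finset.univ.image c).filter (fun l => 1 ≤ μ l) with hT
  set t := T.card with ht
  let g : Fin t → Fin s := fun i => (T.equivFin.symm i : Fin s)
  have hg : Function.Injective g := fun i j hij =>
    (Equiv.injective _) (Subtype.ext hij)
  have hgT : ∀ i, g i ∈ T := fun i => (T.equivFin.symm i).2
  have hgc : ∀ i l, g i ≠ c l := by
    intro i l h
    have h1 := hgT i
    rw [hT, Finset.mem_filter, Finset.mem_sdiff] at h1
    exact h1.1.2 (Finset.mem_image.2 ⟨l, Finset.mem_univ l, h.symm⟩)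
  have hsumT : ∀ h : Fin s → ℕ, ∑ l, h (g l) = ∑ l ∈ T, h l := by
    intro h
    rw [← Finset.sum_coe_sort T h]
    exact Equiv.sum_comp T.equivFin.symm (fun x : T => h x)
  let φ : Fin (9 + t) → Fin s := Fin.append c g
  have hφc : ∀ l, φ (Fin.castAdd t l) = c l := fun l => Fin.append_left c g l
  have hφg : ∀ l, φ (Fin.natAdd 9 l) = g l := fun l => Fin.append_right c g l
  have hφ : Function.Injective φ := by
    intro i j
    refine Fin.addCases (fun i => ?_) (fun i => ?_) i <;>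
      refine Fin.addCases (fun j => ?_) (fun j => ?_) j
    · intro h
      rw [hφc, hφc] at h
      rw [hc h]
    · intro h
      rw [hφc, hφg] at h
      exact absurd h.symm (hgc j i)
    · intro h
      rw [hφc, hφg] at h
      exact absurd h (hgc i j)
    · intro h
      rw [hφg, hφg] at h
      rw [hg h]
  have hran : ∀ i, i ∉ Set.range φ → μ i = 0 := by
    intro i hi
    by_contra h
    by_cases hic : i ∈ Finset.univ.image c
    · obtain ⟨l, -, hl⟩ := Finset.mem_image.1 hic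
      exact hi ⟨Fin.castAdd t l, by rw [hφc, hl]⟩
    · have hiT : i ∈ T := by
        rw [hT, Finset.mem_filter, Finset.mem_sdiff]
        exact ⟨⟨Finset.mem_univ i, hic⟩, by omega⟩
      refine hi ⟨Fin.natAdd 9 (T.equivFin ⟨i, hiT⟩), ?_⟩
      rw [hφg]
      change ((T.equivFin.symm (T.equivFin ⟨i, hiT⟩) : T) : Fin s) = i
      rw [Equiv.symm_apply_apply]
  have hLS : LS δ (fun i => μ (φ i)) (fun i => P (φ i)) = LS δ μ P := by
    ext f
    rw [mem_LS, mem_LS]
    refine and_congr_right fun _ => ⟨fun h i => ?_, fun h i => h (φ i)⟩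
    by_cases hi : i ∈ Set.range φ
    · obtain ⟨j, rfl⟩ := hi
      exact h j
    · rw [hran i hi, pow_zero, Ideal.one_eq_top]
      exact Submodule.mem_top
  have hsum : ∑ i, (μ (φ i) + 1).choose 2 = ∑ i, (μ i + 1).choose 2 := by
    have h1 : ∑ i ∈ Finset.univ.image φ, (μ i + 1).choose 2 = ∑ i, (μ (φ i) + 1).choose 2 :=
      Finset.sum_image fun i _ j _ h => hφ h
    rw [← h1]
    refine Finset.sum_subset (Finset.subset_univ _) fun i _ hi => ?_
    have h2 : i ∉ Set.range φ := fun ⟨j, hj⟩ =>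
      hi (Finset.mem_image.2 ⟨j, Finset.mem_univ j, hj⟩)
    rw [hran i h2]
    exact Nat.choose_eq_zero_of_lt (by norm_num)
  have key := shgh9 h2 t (fun i => P (φ i)) (by
      refine hP.comp (fun ij : Fin (9 + t) × Fin 2 => (φ ij.1, ij.2)) ?_
      rintro ⟨i, j⟩ ⟨i', j'⟩ h
      simp only [Prod.mk.injEq] at h
      rw [hφ h.1, h.2]) δ (fun i => μ (φ i)) e (by simpa only [hφc] using he) he1
    (fun i j l hij hil hjl => by
      simp only [hφc]
      exact hstd i j l hij hil hjl)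
    (fun i => by
      simp only [hφc, hφg]
      rw [hsumT fun l => lamN e (μ l + 1)]
      exact hΛ i)
    (by
      rw [Fin.sum_univ_add]
      simp only [hφc, hφg]
      rw [hsumT fun l => (μ l + 1) ^ 2]
      exact hbig)
  rw [hLS, hsum] at key
  exact key

end ShghU
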