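import Pool.Agent.ShghU.Defs

/-!
# Generic points and intermediate fields
-/

namespace ShghU

open MvPolynomial ShghE ShghR

universe u

/-- A generic point is not on the cubic: `Geq` is a nonzero polynomial with coefficients in the prime field. -/
theorem generic_off {F k : Type*} [Field F] [Field k] [Algebra F k] (P : Fin 2 → k)
    (hP : AlgebraicIndependent F P) : eval P (Geq k) ≠ 0 := by
  have h1 : eval P (Geq k) = aeval P (Geq F) := by
    simp [Geq]
  rw [h1]
  intro h0
  have h2 : Function.Injective (aeval P : MvPolynomial (Fin 2) F →ₐ[F] k) := hP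
  exact Geq_ne_zero (k := F) (h2 (by rw [h0, map_zero]))

theorem mid_aux {F K0 k : Type u} [Field F] [Field K0] [Field k] [IsAlgClosed k] [Algebra F K0]
    [Algebra F k] [Algebra K0 k] [IsScalarTower F K0 k] {κ : Type*} (y : κ → k)
    (hy : AlgebraicIndependent K0 y) :
    ∃ (K : Type u) (_ : Field K) (_ : IsAlgClosed K) (_ : Algebra F K) (_ : Algebra K k)
      (_ : IsScalarTower F K k) (e : K0 → K), (∀ a, algebraMap K k (e a) = algebraMap K0 k a) ∧
      AlgebraicIndependent K y := by
  have hK : IsAlgClosed (algebraicClosure K0 k) :=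
    (algebraicClosure.isAlgClosure K0 k).isAlgClosed
  let inst : Algebra F (algebraicClosure K0 k) :=
    ((algebraMap K0 (algebraicClosure K0 k)).comp (algebraMap F K0)).toAlgebra
  refine ⟨algebraicClosure K0 k, inferInstance, hK, inst, inferInstance, ?_,
    algebraMap K0 (algebraicClosure K0 k), fun _ => rfl, hy.algebraicClosure⟩
  refine IsScalarTower.of_algebraMap_eq fun a => ?_
  exact IsScalarTower.algebraMap_apply F K0 k a

/-- **Intermediate field.** `k` algebraically closed, `P : Fin (r + 1) → k²` generic over `F`. There is an algebraically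
closed field `K` between `F` and `k` which contains the coordinates of the first `r` points, these are generic over `F`,
and the last point is generic over `K`. Take for `K` the algebraic closure in `k` of the field generated over `F` by the
coordinates of the first `r` points (`IntermediateField.adjoin`, `IntermediateField.algebraicClosure`;
it is algebraically closed because `k` is). `AlgebraicIndependent` for the sum type `Fin r × Fin 2 ⊕ Fin 2`
(`AlgebraicIndependent.sumElim_iff`, `algebraicIndependent_adjoin`, `AlgebraicIndependent.extendScalars`,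
algebraic extensions preserve independence: `AlgebraicIndependent.extendScalars_of_isIntegral` or similar), and
`AlgebraicIndependent.of_aeval`/`comp` with the injection `Fin r → Fin (r + 1)`. -/
theorem exists_mid {F k : Type u} [Field F] [Field k] [IsAlgClosed k] [Algebra F k] (r : ℕ)
    (P : Fin (r + 1) → Fin 2 → k)
    (hP : AlgebraicIndependent F (fun ij : Fin (r + 1) × Fin 2 => P ij.1 ij.2)) :
    ∃ (K : Type u) (_ : Field K) (_ : IsAlgClosed K) (_ : Algebra F K) (_ : Algebra K k)
      (_ : IsScalarTower F K k) (Q : Fin r → Fin 2 → K),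
      (∀ l j, algebraMap K k (Q l j) = P l.castSucc j) ∧
      AlgebraicIndependent F (fun ij : Fin r × Fin 2 => Q ij.1 ij.2) ∧
      AlgebraicIndependent K (P (Fin.last r)) := by
  let x : Fin r × Fin 2 → k := fun ij => P ij.1.castSucc ij.2
  let σ : Fin 2 ⊕ (Fin r × Fin 2) → Fin (r + 1) × Fin 2 :=
    Sum.elim (fun j => (Fin.last r, j)) (fun ij => (ij.1.castSucc, ij.2))
  have hσ : Function.Injective σ := by
    rintro (j | ⟨l, j⟩) (j' | ⟨l', j'⟩) h
    · simp only [σ, Sum.elim_inl, Prod.mk.injEq, true_and] at h
      rw [h]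
    · simp only [σ, Sum.elim_inl, Sum.elim_inr, Prod.mk.injEq] at h
      exact absurd h.1.symm (Fin.castSucc_lt_last l').ne
    · simp only [σ, Sum.elim_inl, Sum.elim_inr, Prod.mk.injEq] at h
      exact absurd h.1 (Fin.castSucc_lt_last l).ne
    · simp only [σ, Sum.elim_inr, Prod.mk.injEq] at h
      rw [Fin.castSucc_injective r h.1, h.2]
  have h1 : AlgebraicIndependent F (Sum.elim (P (Fin.last r)) x) := by
    have h2 := hP.comp σ hσ
    have h3 : (fun ij : Fin (r + 1) × Fin 2 => P ij.1 ij.2) ∘ σ = Sum.elim (P (Fin.last r)) x := by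
      funext z
      rcases z with j | ⟨l, j⟩ <;> rfl
    rwa [h3] at h2
  obtain ⟨hx, hy⟩ := AlgebraicIndependent.sumElim_iff.1 h1
  let K0 := IntermediateField.adjoin F (Set.range x)
  have hy0 : AlgebraicIndependent K0 (P (Fin.last r)) :=
    IntermediateField.algebraicIndependent_adjoin_iff.2 hy
  obtain ⟨K, i1, i2, i3, i4, i5, e, he, hyK⟩ := mid_aux (F := F) (P (Fin.last r)) hy0
  refine ⟨K, i1, i2, i3, i4, i5, fun l j =>
    e ⟨P l.castSucc j, IntermediateField.subset_adjoin F _ ⟨(l, j), rfl⟩⟩, ?_, ?_, hyK⟩
  · intro l j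
    exact he _
  · refine AlgebraicIndependent.of_comp (IsScalarTower.toAlgHom F K k) ?_
    have h4 : (IsScalarTower.toAlgHom F K k) ∘ (fun ij : Fin r × Fin 2 =>
        e ⟨P ij.1.castSucc ij.2, IntermediateField.subset_adjoin F _ ⟨(ij.1, ij.2), rfl⟩⟩) = x := by
      funext ij
      exact he _
    rw [h4]
    exact hx

end ShghU
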