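import Pool.Agent.ShghU.SpecU
import Pool.Agent.ShghU.CoreU
import Pool.Agent.ShghU.GenU

/-!
# The induction step
-/

namespace ShghU

open MvPolynomial ShghE ShghR

theorem algInd_comp {F k ι κ : Type*} [Field F] [Field k] [Algebra F k] (x : ι → k)
    (hx : AlgebraicIndependent F x) (σ : κ → ι) (hσ : Function.Injective σ) (y : κ → k)
    (hy : ∀ a, y a = x (σ a)) : AlgebraicIndependent F y := by
  have h : y = x ∘ σ := funext hy
  rw [h]
  exact hx.comp σ hσ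

theorem castSucc_pair_injective (r : ℕ) : Function.Injective
      (fun ij : Fin r × Fin 2 => ((ij.1.castSucc, ij.2) : Fin (r + 1) × Fin 2)) := by
  intro a b hh
  have h1 := congrArg Prod.fst hh
  have h2 := congrArg Prod.snd hh
  exact Prod.ext (Fin.castSucc_injective r h1) h2

theorem snoc_sum {r : ℕ} (n : Fin r → ℝ) (c : ℝ) (ν : Fin (r + 1) → ℕ) :
    ∑ l, (Fin.snoc n c : Fin (r + 1) → ℝ) l * (ν l : ℝ) =
      ∑ l, n l * (ν l.castSucc : ℝ) + c * ν (Fin.last r) := by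
  rw [Fin.sum_univ_castSucc, Fin.snoc_last]
  congr 1
  exact Finset.sum_congr rfl fun l _ => by
    rw [Fin.snoc_castSucc (α := fun _ : Fin (r + 1) => ℝ)]

/-- A further point with coefficient `0`: a curve through `r + 1` points is a curve through the first `r` points. -/
theorem ynef_zero.{u} (r : ℕ) (d : ℝ) (m : Fin 9 → ℝ) (n : Fin r → ℝ) (δ₀ : ℕ)
    (h : YNef.{u} r d m n δ₀) : YNef.{u} (r + 1) d m (Fin.snoc n (0 : ℝ)) δ₀ := by
  obtain ⟨B, hB⟩ := h
  refine ⟨B, ?_⟩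
  intro F k _ _ _ _ h2 Z hZ P hP f μ ν hf hδ hμ hν
  have hP1 : AlgebraicIndependent F (fun ij : Fin r × Fin 2 => P ij.1.castSucc ij.2) :=
    algInd_comp _ hP _ (castSucc_pair_injective r) _ (fun _ => rfl)
  have h1 := hB F k h2 Z hZ (fun l => P l.castSucc) hP1 f μ
    (fun l => ν l.castSucc) hf hδ hμ (fun l => hν l.castSucc)
  rw [snoc_sum, zero_mul, add_zero]
  exact h1

/-- **The induction step.** If `D = (d; m; n)` is nonnegative on the curves of degree `≤ δ₀` in the special position and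
`e = 3 d - Σ m_i ≥ 0`, `0 ≤ d`, `m_i ≥ 0`, `n_l ≥ 0`, then so is `(d + 6 q² e; m_i + 2 q² e; n, 2 q e)` for `q ≥ 1`.

Proof. Take `B' = max B (2 q (q + 1) + δ₀ + 1)`. Let `f` be a curve of degree `δ = totalDegree f` with multiplicities
`μ_i`, `ν_l` (`l < r`), `τ` at the last point. `exists_mid` gives `K, Q`; `SpecZ.tower` (to `K`) and `coreU` over `K` (points
`Z`, `Q` with coordinates in `K`, `generic_off` for the `Q l`: `algebraMap` of their coordinates; `AlgebraicIndependent F (Q l)`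
from `AlgebraicIndependent F` of all coordinates) give `w, g0` over `K`. The hypothesis for the fields `F, K` and the points
`Q` (`SpecZ F B Z`) and the curve `g0`:
`Σ m_i (μ_i - w)⁺ + Σ n_l ν_l ≤ d deg g0 ≤ d (δ - 3 w)`, so `Σ m_i μ_i + Σ n_l ν_l + w e ≤ d δ`. With
`2 q τ ≤ 2 q² (3 δ - Σ μ_i) + w`, multiplied by `e ≥ 0`, this gives the claim:
`Σ (m_i + 2 q² e) μ_i + Σ n_l ν_l + 2 q e τ ≤ d δ - w e + 2 q² e Σ μ_i + e (2 q² (3 δ - Σ μ_i) + w) = (d + 6 q² e) δ`. -/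
theorem ynef_step.{u} (r : ℕ) (d : ℝ) (m : Fin 9 → ℝ) (n : Fin r → ℝ) (δ₀ : ℕ) (hd : 0 ≤ d)
    (hm : ∀ i, 0 ≤ m i) (e : ℝ) (he : e = 3 * d - ∑ i, m i) (he0 : 0 ≤ e)
    (h : YNef.{u} r d m n δ₀) (q : ℕ) (hq : 1 ≤ q) :
    YNef.{u} (r + 1) (d + 6 * q ^ 2 * e) (fun i => m i + 2 * q ^ 2 * e)
      (Fin.snoc n (2 * q * e)) δ₀ := by
  obtain ⟨B, hB⟩ := h
  refine ⟨max B (2 * q * (q + 1) + δ₀ + 1), ?_⟩
  intro F k _ _ _ _ h2 Z hZ P hP f μ ν hf hδ hμ hν
  obtain ⟨K, i1, i2, i3, i4, i5, Q, hQP, hQ, hPK⟩ := exists_mid r P hP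
  have h2K : (2 : K) ≠ 0 := by
    intro h0
    apply h2
    have := congrArg (algebraMap K k) h0
    rwa [map_ofNat, map_zero] at this
  have hQoff : ∀ l, eval (Q l) (Geq K) ≠ 0 := by
    intro l
    refine generic_off (F := F) (Q l) ?_
    have hinj : Function.Injective (fun j : Fin 2 => ((l, j) : Fin r × Fin 2)) := by
      intro j j' hh
      exact congrArg Prod.snd hh
    exact algInd_comp _ hQ _ hinj _ (fun _ => rfl)
  obtain ⟨w, g0, hg0, hdeg, hgμ, hgν, hτ⟩ := coreU h2K (fun i j => algebraMap F K (Z i j))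
    (2 * q * (q + 1) + δ₀ + 1) (SpecZ.tower (hZ.mono (le_max_right _ _))) Q hQoff
    (P (Fin.last r)) hPK f hf f.totalDegree le_rfl μ (fun l => ν l.castSucc) (ν (Fin.last r))
    (fun i => by
      have h1 := hμ i
      rw [IsScalarTower.algebraMap_apply F K k, IsScalarTower.algebraMap_apply F K k] at h1
      exact h1)
    (fun l => by
      have h1 := hν l.castSucc
      rw [← hQP, ← hQP] at h1
      exact h1)
    (hν (Fin.last r)) q hq (by omega)
  have h1 := hB F K h2K Z (hZ.mono (le_max_left _ _)) Q hQ g0 (fun i => μ i - w)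
    (fun l => ν l.castSucc) hg0 (by omega) hgμ hgν
  have h3 : ∑ i, m i * ((μ i : ℝ) - w) ≤ ∑ i, m i * ((μ i - w : ℕ) : ℝ) := by
    refine Finset.sum_le_sum fun i _ => mul_le_mul_of_nonneg_left ?_ (hm i)
    have h4 : μ i ≤ (μ i - w) + w := by omega
    have h5 : (μ i : ℝ) ≤ ((μ i - w : ℕ) : ℝ) + w := by exact_mod_cast h4
    linarith
  have h4 : ∑ i, m i * ((μ i : ℝ) - w) = ∑ i, m i * (μ i : ℝ) - w * ∑ i, m i := by
    rw [Finset.mul_sum, ← Finset.sum_sub_distrib]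
    exact Finset.sum_congr rfl fun i _ => by ring
  have h5 : (g0.totalDegree : ℝ) + 3 * w ≤ f.totalDegree := by exact_mod_cast hdeg
  have h6 : d * g0.totalDegree ≤ d * (f.totalDegree - 3 * w) :=
    mul_le_mul_of_nonneg_left (by linarith) hd
  have h7 : 2 * (q : ℝ) * (ν (Fin.last r) : ℝ) ≤
      2 * (q : ℝ) ^ 2 * (3 * (f.totalDegree : ℝ) - ∑ i, (μ i : ℝ)) + w := by exact_mod_cast hτ
  have h8 := mul_le_mul_of_nonneg_left h7 he0
  rw [snoc_sum]
  have h10 : ∑ i, (m i + 2 * (q : ℝ) ^ 2 * e) * (μ i : ℝ) =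
      ∑ i, m i * (μ i : ℝ) + 2 * (q : ℝ) ^ 2 * e * ∑ i, (μ i : ℝ) := by
    rw [Finset.mul_sum, ← Finset.sum_add_distrib]
    exact Finset.sum_congr rfl fun i _ => by ring
  show ∑ i, (m i + 2 * (q : ℝ) ^ 2 * e) * (μ i : ℝ) + _ ≤ _
  rw [h10]
  have h11 : (w : ℝ) * ∑ i, m i = w * (3 * d - e) := by rw [he]; ring
  rw [h4, h11] at h3
  nlinarith [h1, h3, h6, h8]

end ShghU
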