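import Pool.Agent.ShghU.BaseU
import Pool.Agent.ShghU.StepU

/-!
# Unfolding in all directions (integral steps)
-/

namespace ShghU

open MvPolynomial ShghE ShghR ShghT

/-- Induction on `t`: `ynef_base`, `ynef_step`, `ynef_zero`. The number `e = 3 d - Σ m_i` does not change
(`3 · 6 q² e = 9 · 2 q² e`). `n l = 2 (q l) e`. -/
theorem ynef_all.{u} (t : ℕ) (d : ℝ) (m : Fin 9 → ℝ) (hN : NumNef9 d m) (e : ℝ)
    (he : e = 3 * d - ∑ i, m i) (he0 : 0 ≤ e) (q : Fin t → ℕ) (δ₀ : ℕ) :
    YNef.{u} t (d + 6 * e * ∑ l, (q l : ℝ) ^ 2) (fun i => m i + 2 * e * ∑ l, (q l : ℝ) ^ 2)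
      (fun l => 2 * q l * e) δ₀ := by
  have hm0 : 0 ≤ ∑ i, m i := Finset.sum_nonneg fun i _ => hN.1 i
  have hd : 0 ≤ d := by linarith
  induction t with
  | zero =>
    have h1 := ynef_base.{u} d m (fun l => 2 * q l * e) hN (by linarith) δ₀
    simpa using h1
  | succ t ih =>
    have h1 := ih (fun l => q l.castSucc)
    have hS : ∑ l, (q l : ℝ) ^ 2 = ∑ l : Fin t, (q l.castSucc : ℝ) ^ 2 + (q (Fin.last t) : ℝ) ^ 2 :=
      Fin.sum_univ_castSucc _
    have hS0 : 0 ≤ ∑ l : Fin t, (q l.castSucc : ℝ) ^ 2 :=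
      Finset.sum_nonneg fun l _ => sq_nonneg _
    have hn : ∀ c : ℝ, c = 2 * q (Fin.last t) * e →
        (Fin.snoc (fun l : Fin t => 2 * (q l.castSucc : ℝ) * e) c : Fin (t + 1) → ℝ) =
          fun l => 2 * (q l : ℝ) * e := by
      intro c hc
      funext l
      refine Fin.lastCases ?_ (fun l => ?_) l
      · rw [Fin.snoc_last, hc]
      · rw [Fin.snoc_castSucc (α := fun _ : Fin (t + 1) => ℝ)]
    rcases Nat.eq_zero_or_pos (q (Fin.last t)) with h0 | h0
    · have h2 := ynef_zero.{u} t _ _ _ δ₀ h1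
      rw [hn 0 (by rw [h0]; simp)] at h2
      rw [hS, h0]
      simpa using h2
    · have h2 := ynef_step.{u} t _ _ _ δ₀ (by positivity) (fun i => by
        have := hN.1 i
        positivity) e (by
          rw [Finset.sum_add_distrib, Finset.sum_const, Finset.card_univ, Fintype.card_fin, he,
            nsmul_eq_mul]
          push_cast
          ring) he0 h1 (q (Fin.last t)) h0
      rw [hn _ rfl] at h2
      rw [hS]
      convert h2 using 1
      · ring
      · funext i
        ring

/-- **From the special position to generic points.** `P` generic over the prime field of an algebraically closed field `k : Type u`,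
`char k ≠ 2`. Take `K = AlgebraicClosure (FractionRing (MvPolynomial (Fin t × Fin 2) k))`, `Z` from `exists_specZ k` and for
the further points the variables, generic over `k`. Semicontinuity (`ShghE.transfer`, `ShghE.tf_system` or
`ShghT.finrank_LS_le` over the prime field `⊥`) gives a nonzero curve over `K` of degree `≤ f.totalDegree` with the same multiplicities through these points,
and `YNef` (`0 ≤ d`, so the degree may be replaced by the larger `f.totalDegree`). The points are numbered by `Fin (9 + t)`: `Fin.castAdd t i` and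
`Fin.natAdd 9 l`. -/
theorem generic_of_ynef.{u} {k : Type u} [Field k] [IsAlgClosed k] (h2 : (2 : k) ≠ 0) (t : ℕ)
    (P : Fin (9 + t) → Fin 2 → k)
    (hP : AlgebraicIndependent (⊥ : Subfield k) (fun ij : Fin (9 + t) × Fin 2 => P ij.1 ij.2))
    (d : ℝ) (hd : 0 ≤ d) (m : Fin 9 → ℝ) (n : Fin t → ℝ) (δ₀ : ℕ) (h : YNef.{u} t d m n δ₀)
    (f : MvPolynomial (Fin 2) k) (hf : f ≠ 0) (hδ : f.totalDegree ≤ δ₀) (μ : Fin (9 + t) → ℕ)
    (hμ : ∀ i, f ∈ ptIdeal (P i 0) (P i 1) ^ μ i) :
    ∑ i, m i * μ (Fin.castAdd t i) + ∑ l, n l * μ (Fin.natAdd 9 l) ≤ d * f.totalDegree := by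
  obtain ⟨B, hB⟩ := h
  obtain ⟨Z, hZ⟩ := exists_specZ k h2 B
  let R := MvPolynomial (Fin t × Fin 2) k
  let K := AlgebraicClosure (FractionRing R)
  let g : R →+* K := (algebraMap (FractionRing R) K).comp (algebraMap R (FractionRing R))
  have hg : Function.Injective g :=
    (algebraMap (FractionRing R) K).injective.comp (IsFractionRing.injective R (FractionRing R))
  let algkK : Algebra k K := (g.comp C).toAlgebra
  have hind : AlgebraicIndependent k (fun ij : Fin t × Fin 2 => g (X ij)) := by
    let gA : R →ₐ[k] K := { g with commutes' := fun r => rfl }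
    exact (MvPolynomial.algebraicIndependent_X (Fin t × Fin 2) k).map' (f := gA) hg
  have h2K : (2 : K) ≠ 0 := by
    intro h0
    apply h2
    apply (algebraMap k K).injective
    rw [map_ofNat, map_zero]
    exact h0
  let P' : Fin (9 + t) → Fin 2 → K :=
    Fin.append (fun i j => algebraMap k K (Z i j)) (fun l j => g (X (l, j)))
  have hP'1 : ∀ i, P' (Fin.castAdd t i) = fun j => algebraMap k K (Z i j) := fun i =>
    Fin.append_left _ _ i
  have hP'2 : ∀ l, P' (Fin.natAdd 9 l) = fun j => g (X (l, j)) := fun l =>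
    Fin.append_right _ _ l
  let algbK : Algebra (⊥ : Subfield k) K :=
    ((algebraMap k K).comp (algebraMap (⊥ : Subfield k) k)).toAlgebra
  have hsemi := finrank_LS_le (F := (⊥ : Subfield k)) P hP P' f.totalDegree μ
  have hfin : Module.Finite k (LS f.totalDegree μ P) :=
    Module.Finite.of_injective (semibPsi f.totalDegree μ P)
      (LinearMap.ker_eq_bot.1 (semib_ker f.totalDegree μ P))
  have hpos : 0 < Module.finrank k (LS f.totalDegree μ P) := by
    have hnt : Nontrivial (LS f.totalDegree μ P) :=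
      ⟨⟨⟨f, le_rfl, hμ⟩, 0, fun h0 => hf (congrArg Subtype.val h0)⟩⟩
    exact Module.finrank_pos
  have hnt' : Nontrivial (LS f.totalDegree μ P') :=
    Module.nontrivial_of_finrank_pos (R := K) (lt_of_lt_of_le hpos hsemi)
  obtain ⟨⟨f', hf'1, hf'2⟩, hf'0⟩ := exists_ne (0 : LS f.totalDegree μ P')
  have hf'ne : f' ≠ 0 := fun h0 => hf'0 (Subtype.ext h0)
  have key := hB k K h2K Z hZ (fun l j => g (X (l, j))) hind f'
    (fun i => μ (Fin.castAdd t i)) (fun l => μ (Fin.natAdd 9 l)) hf'ne (hf'1.trans hδ)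
    (fun i => by
      have h1 := hf'2 (Fin.castAdd t i)
      rw [hP'1] at h1
      exact h1)
    (fun l => by
      have h1 := hf'2 (Fin.natAdd 9 l)
      rw [hP'2] at h1
      exact h1)
  refine key.trans (mul_le_mul_of_nonneg_left ?_ hd)
  exact_mod_cast hf'1

end ShghU
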