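import Pool.Agent.ShghU.Defs

/-!
# Special points over field extensions
-/

namespace ShghU

open MvPolynomial ShghE ShghR WeierstrassCurve WeierstrassCurve.Affine

universe u

theorem SpecZ.mono {F : Type u} [Field F] {B B' : ℕ} (h : B ≤ B') {Z : Fin 9 → Fin 2 → F}
    (hZ : SpecZ F B' Z) : SpecZ F B Z := by
  intro K _ _ _
  obtain ⟨h1, h2, h3⟩ := hZ K
  exact ⟨h1, h2, fun c hc ε hs =>
    h3 c (fun i => (hc i).trans (by exact_mod_cast h)) ε hs⟩

/-- Give `K` the structure of an `F`-algebra through `F'`. -/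
theorem SpecZ.tower {F F' : Type u} [Field F] [Field F'] [Algebra F F'] {B : ℕ}
    {Z : Fin 9 → Fin 2 → F} (hZ : SpecZ F B Z) :
    SpecZ F' B (fun i j => algebraMap F F' (Z i j)) := by
  intro K _ _ _
  letI alg : Algebra F K := ((algebraMap F' K).comp (algebraMap F F')).toAlgebra
  exact hZ K

/-- the base change of points along equalities of the curves -/
theorem SpecU_map (F K : Type u) [Field F] [Field K] [DecidableEq F] [DecidableEq K]
    [Algebra F K] (W : WeierstrassCurve.Affine F) (W₁ : WeierstrassCurve.Affine F)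
    (W₂ : WeierstrassCurve.Affine K) (h₁ : W.baseChange F = W₁) (h₂ : W.baseChange K = W₂) :
    ∃ φ : W₁.Point →+ W₂.Point, Function.Injective φ ∧
      ∀ (a b : F) (h : W₁.Nonsingular a b),
        ∃ h' : W₂.Nonsingular (algebraMap F K a) (algebraMap F K b),
          φ (Point.some a b h) = Point.some _ _ h' := by
  subst h₁ h₂
  exact ⟨Point.map (Algebra.ofId F K), Point.map_injective _, fun a b h => ⟨_, rfl⟩⟩

/-- The group homomorphism `E(F) → E(K)`, `(a, b) ↦ (φ a, φ b)`, is injective. Use `WeierstrassCurve.Affine.Point.map`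
and `Point.map_injective` (for the curve `{ a₄ := 1, others 0 }` over `ℤ`, whose base changes to `F` and `K` are `E0 F`, `E0 K`;
rewrite along these equalities), or define the map directly and check additivity with
`WeierstrassCurve.Affine.map_slope`, `map_addX`, `map_addY`. -/
theorem exists_pointMap (F K : Type u) [Field F] [Field K] [DecidableEq F] [DecidableEq K]
    [Algebra F K] : ∃ φ : (E0 F).Point →+ (E0 K).Point, Function.Injective φ ∧
      ∀ (a b : F) (h : (E0 F).Nonsingular a b),
        ∃ h' : (E0 K).Nonsingular (algebraMap F K a) (algebraMap F K b),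
          φ (Point.some a b h) = Point.some _ _ h' := by
  refine SpecU_map F K (E0 F) (E0 F) (E0 K) ?_ ?_
  · ext <;> simp [WeierstrassCurve.baseChange, WeierstrassCurve.map]
  · ext <;> simp [WeierstrassCurve.baseChange, WeierstrassCurve.map]

/-- `ShghE.exists_indep` over `F` (the points are not `0` and have coordinates, `Indep.ne_zero`), and `exists_pointMap` for
every `K`: a relation in `E(K)` comes from a relation in `E(F)`. Use `B + 1` to have the points nonzero. The point
`T = (0, 0)` satisfies `T + T = 0` (`ShghE.CurveData.E.T_two`, `T_eq` from `exists_curveData2`). -/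
theorem exists_specZ (F : Type u) [Field F] [IsAlgClosed F] (h2 : (2 : F) ≠ 0) (B : ℕ) :
    ∃ Z : Fin 9 → Fin 2 → F, SpecZ F B Z := by
  classical
  obtain ⟨CD⟩ := exists_curveData2 (k := F) h2
  obtain ⟨p, hp⟩ := exists_indep h2 CD.E.T CD.E.T_two (B + 1)
  have hI : Indep p CD.E.T (B + 1) := hp
  have hp0 := hI.ne_zero (Nat.le_add_left 1 B)
  have hab : ∀ i, ∃ (a b : F) (h : (E0 F).Nonsingular a b), p i = Point.some a b h := by
    intro i
    rcases hq : p i with _ | ⟨a, b, h⟩
    · exact absurd hq (hp0 i)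
    · exact ⟨a, b, h, rfl⟩
  choose a b h hab using hab
  refine ⟨fun i => ![a i, b i], fun K _ _ _ => ?_⟩
  obtain ⟨φ, hφ, hs⟩ := exists_pointMap F K
  have hZ : ∀ i, ∃ h' : (E0 K).Nonsingular (algebraMap F K (a i)) (algebraMap F K (b i)),
      φ (p i) = Point.some _ _ h' := by
    intro i
    obtain ⟨h', e⟩ := hs (a i) (b i) (h i)
    exact ⟨h', by rw [hab i, e]⟩
  choose hZ hpZ using hZ
  have hT : ∃ h' : (E0 K).Nonsingular 0 0, φ CD.E.T = Point.some 0 0 h' := by
    obtain ⟨h', e⟩ := hs 0 0 CD.T_ns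
    rw [CD.T_eq, e]
    have h0 : algebraMap F K 0 = 0 := map_zero _
    refine ⟨by rwa [h0] at h', ?_⟩
    simp only [map_zero]
  obtain ⟨hT, hTe⟩ := hT
  refine ⟨hZ, hT, fun c hc ε hsum => ?_⟩
  refine hp c (fun i => (hc i).trans (by push_cast; linarith)) ε (hφ ?_)
  rw [map_sum, map_zsmul, hTe]
  refine Eq.trans (Finset.sum_congr rfl fun i _ => ?_) hsum
  rw [map_zsmul, hpZ i]
  rfl

end ShghU
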