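import Pool.Agent.ShghU.Defs

/-!
# Transfer to the special position with fixed further points
-/

namespace ShghU

open MvPolynomial ShghE ShghR

/-- The rows of the linear system. -/
abbrev TransferU_Row {I : Type} (m : I → ℕ) : Type :=
  Σ i : I, ((Finsupp.finite_of_degree_lt (σ := Fin 2) (m i)).toFinset)

/-- the linear system -/
noncomputable def TransferU_Mat {F : Type*} [Field F] {I : Type} (m : I → ℕ)
    (pA : I → Fin 2 → MvPolynomial (Fin 2) F) (δ : ℕ) :
    Matrix (TransferU_Row m) (tfS δ) (MvPolynomial (Fin 2) F) :=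
  fun r e => tfM (pA r.1 0) (pA r.1 1) e r.2

theorem TransferU_map {F k : Type*} {I : Type} [Field F] [Field k] [Algebra F k] (m : I → ℕ)
    (pA : I → Fin 2 → MvPolynomial (Fin 2) F) (P : Fin 2 → k) (δ : ℕ) (r : TransferU_Row m)
    (e : tfS δ) : (aeval P : _ →ₐ[F] k).toRingHom (TransferU_Mat m pA δ r e) =
      tfM (aeval P (pA r.1 0)) (aeval P (pA r.1 1)) e r.2 :=
  (tfM_map (aeval P : _ →ₐ[F] k).toRingHom (pA r.1 0) (pA r.1 1) e r.2).symm

/-- the linear system, transferred -/
theorem TransferU_system {F k k' : Type*} {I : Type} [Field F] [Field k] [Field k'] [Algebra F k]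
    [Algebra F k'] [Finite I] (pA : I → Fin 2 → MvPolynomial (Fin 2) F) (P : Fin 2 → k)
    (hP : AlgebraicIndependent F P) (P' : Fin 2 → k') (δ : ℕ) (m : I → ℕ)
    (h : ∃ f : MvPolynomial (Fin 2) k, f ≠ 0 ∧ f.totalDegree ≤ δ ∧
      ∀ i, f ∈ ptIdeal (aeval P (pA i 0)) (aeval P (pA i 1)) ^ m i) :
    ∃ c : tfS δ → k', c ≠ 0 ∧ ∀ i, ∀ x : Fin 2 →₀ ℕ, x.degree < m i →
      ∑ e : tfS δ, tfM (aeval P' (pA i 0)) (aeval P' (pA i 1)) e x * c e = 0 := by
  obtain ⟨f, hf0, hfd, hfm⟩ := h
  have key := tf_kernel (TransferU_Mat m pA δ) (aeval P).toRingHom hP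
    (aeval P' : _ →ₐ[F] k').toRingHom ?_
  · obtain ⟨c, hc0, hc⟩ := key
    refine ⟨c, hc0, fun i x hx => ?_⟩
    have h1 := hc ⟨i, ⟨x, by simpa using hx⟩⟩
    simp only [TransferU_map] at h1
    exact h1
  · refine ⟨fun e => f.coeff e, fun hc => hf0 ?_, fun r => ?_⟩
    · rw [tf_expand hfd]
      refine Finset.sum_eq_zero fun e _ => ?_
      have := congrFun hc e
      simp only [Pi.zero_apply] at this
      rw [this, monomial_zero]
    · simp only [TransferU_map]
      obtain ⟨i, x, hx⟩ := r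
      have h1 := (tf_mem_iff _ _ _ _).1 (hfm i) x (by simpa using hx)
      rw [tf_expand hfd, tf_coeff] at h1
      exact h1

/-- Transfer of one generic point `P` (coordinates algebraically independent over `F`) to the point `(-v0 ξ, 0)` over
`F[ξ]`; the points `Z i`, `Q l` with coordinates in `F` are fixed. Adapt `ShghR.transfer_special0` (and `ShghE.tf_system`):
the conditions form a matrix over `A = MvPolynomial (Fin 2) F` (rows: `tfM (C a) (C b) e x` for the fixed points,
`tfM (X 0) (X 1) e x` for `P`), `θ = aeval P : A → k` is injective, `θ' : A → FractionRing F[ξ]`, `X 0 ↦ -v0 ξ`, `X 1 ↦ 0`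
(`ShghE.tf_kernel`); clear denominators, divide by the largest common power of `ξ` (`TransferR_divide`). -/
theorem transferU {F k : Type*} [Field F] [Field k] [Algebra F k] {r : ℕ}
    (Z : Fin 9 → Fin 2 → F) (Q : Fin r → Fin 2 → F) (P : Fin 2 → k) (hP : AlgebraicIndependent F P)
    (v0 : F) (δ : ℕ) (μ : Fin 9 → ℕ) (ν : Fin r → ℕ) (τ : ℕ)
    (h : ∃ f : MvPolynomial (Fin 2) k, f ≠ 0 ∧ f.totalDegree ≤ δ ∧
      (∀ i, f ∈ ptIdeal (algebraMap F k (Z i 0)) (algebraMap F k (Z i 1)) ^ μ i) ∧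
      (∀ l, f ∈ ptIdeal (algebraMap F k (Q l 0)) (algebraMap F k (Q l 1)) ^ ν l) ∧
      f ∈ ptIdeal (P 0) (P 1) ^ τ) :
    ∃ f : Polynomial (MvPolynomial (Fin 2) F), f.coeff 0 ≠ 0 ∧
      (∀ l, (f.coeff l).totalDegree ≤ δ) ∧
      (∀ l i, f.coeff l ∈ ptIdeal (Z i 0) (Z i 1) ^ μ i) ∧
      (∀ l i, f.coeff l ∈ ptIdeal (Q i 0) (Q i 1) ^ ν i) ∧
      f ∈ (Ideal.span {Polynomial.C (MvPolynomial.X 0) + Polynomial.C (MvPolynomial.C v0) *
        Polynomial.X, Polynomial.C (MvPolynomial.X 1)} :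
        Ideal (Polynomial (MvPolynomial (Fin 2) F))) ^ τ := by
  classical
  let I := Fin 9 ⊕ (Fin r ⊕ Unit)
  let m : I → ℕ := Sum.elim μ (Sum.elim ν fun _ => τ)
  let pA : I → Fin 2 → MvPolynomial (Fin 2) F :=
    Sum.elim (fun i j => C (Z i j)) (Sum.elim (fun i j => C (Q i j)) fun _ j => X j)
  -- the special points over `F[ξ]`
  let P' : I → Fin 2 → Polynomial F :=
    Sum.elim (fun i j => Polynomial.C (Z i j)) (Sum.elim (fun i j => Polynomial.C (Q i j))
      fun _ => ![-(Polynomial.C v0 * Polynomial.X), 0])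
  let K := FractionRing (Polynomial F)
  let p' : Fin 2 → K := fun j => algebraMap (Polynomial F) K (P' (Sum.inr (Sum.inr ())) j)
  have hAP : ∀ i j, aeval p' (pA i j) = algebraMap (Polynomial F) K (P' i j) := by
    rintro (i | i | i) j
    · show aeval p' (C (Z i j)) = algebraMap (Polynomial F) K (Polynomial.C (Z i j))
      rw [aeval_C, IsScalarTower.algebraMap_apply F (Polynomial F) K]
      rfl
    · show aeval p' (C (Q i j)) = algebraMap (Polynomial F) K (Polynomial.C (Q i j))
      rw [aeval_C, IsScalarTower.algebraMap_apply F (Polynomial F) K]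
      rfl
    · show aeval p' (X j) = _
      rw [aeval_X]
  obtain ⟨f, hf0, hfd, hfZ, hfQ, hfP⟩ := h
  obtain ⟨c', hc'0, hc'1⟩ := TransferU_system pA P hP p' δ m ⟨f, hf0, hfd, by
    rintro (i | i | i)
    · show f ∈ ptIdeal (aeval P (C (Z i 0))) (aeval P (C (Z i 1))) ^ μ i
      rw [aeval_C, aeval_C]
      exact hfZ i
    · show f ∈ ptIdeal (aeval P (C (Q i 0))) (aeval P (C (Q i 1))) ^ ν i
      rw [aeval_C, aeval_C]
      exact hfQ i
    · show f ∈ ptIdeal (aeval P (X 0)) (aeval P (X 1)) ^ τ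
      rw [aeval_X, aeval_X]
      exact hfP⟩
  have hc' : ∀ i, ∀ x : Fin 2 →₀ ℕ, x.degree < m i → ∑ e : tfS δ,
      tfM (algebraMap (Polynomial F) K (P' i 0)) (algebraMap (Polynomial F) K (P' i 1)) e x *
        c' e = 0 := by
    intro i x hx
    have h1 := hc'1 i x hx
    rw [hAP, hAP] at h1
    exact h1
  -- clear denominators
  obtain ⟨d, hd⟩ := IsLocalization.exist_integer_multiples_of_finite
    (nonZeroDivisors (Polynomial F)) c'
  choose c hcd using hd
  have hinj : Function.Injective (algebraMap (Polynomial F) K) := IsFractionRing.injective _ _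
  have hd0 : algebraMap (Polynomial F) K d ≠ 0 := by
    rw [Ne, map_eq_zero_iff _ hinj]
    exact nonZeroDivisors.coe_ne_zero d
  have hcd' : ∀ e, algebraMap (Polynomial F) K (c e) = algebraMap (Polynomial F) K d * c' e := by
    intro e
    rw [hcd e, Algebra.smul_def]
  have hc0 : c ≠ 0 := by
    intro h0
    apply hc'0
    ext e
    have h1 := hcd' e
    rw [h0, Pi.zero_apply, map_zero] at h1
    exact (mul_eq_zero.1 h1.symm).resolve_left hd0
  have hc : ∀ i, ∀ x : Fin 2 →₀ ℕ, x.degree < m i →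
      ∑ e : tfS δ, tfM (P' i 0) (P' i 1) e x * c e = 0 := by
    intro i x hx
    apply hinj
    rw [map_zero, map_sum]
    have h1 := hc' i x hx
    have h2 : ∀ e : tfS δ, algebraMap (Polynomial F) K (tfM (P' i 0) (P' i 1) e x * c e) =
        algebraMap (Polynomial F) K d *
          (tfM (algebraMap (Polynomial F) K (P' i 0)) (algebraMap (Polynomial F) K (P' i 1)) e x *
            c' e) := by
      intro e
      rw [map_mul, ← tfM_map, hcd' e]
      ring
    simp only [h2]
    rw [← Finset.mul_sum, h1, mul_zero]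
  -- divide by the largest common power of `ξ`
  obtain ⟨c₁, hc₁0, hc₁⟩ := TransferR_divide c hc0 (fun i x e => tfM (P' i 0) (P' i 1) e x)
    (fun i x => x.degree < m i) hc
  -- the polynomial
  let Φ : MvPolynomial (Fin 2) (Polynomial F) →+* Polynomial (MvPolynomial (Fin 2) F) :=
    eval₂Hom (Polynomial.mapRingHom C) (fun i => Polynomial.C (X i))
  let G : MvPolynomial (Fin 2) (Polynomial F) := ∑ e : tfS δ, monomial (e : Fin 2 →₀ ℕ) (c₁ e)
  have hΦmon : ∀ (e : Fin 2 →₀ ℕ) (p : Polynomial F) l,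
      (Φ (monomial e p)).coeff l = monomial e (p.coeff l) := by
    intro e p l
    have h1 : Φ (monomial e p) = Polynomial.map C p * Polynomial.C (monomial e 1) := by
      simp only [Φ]
      rw [coe_eval₂Hom, eval₂_monomial]
      congr 1
      rw [monomial_eq, C_1, one_mul, Finsupp.prod, Finsupp.prod, map_prod]
      simp
    rw [h1, Polynomial.coeff_mul_C, Polynomial.coeff_map, C_mul_monomial, mul_one]
  have hcoeff : ∀ l, (Φ G).coeff l = ∑ e : tfS δ, monomial (e : Fin 2 →₀ ℕ) ((c₁ e).coeff l) := by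
    intro l
    simp only [G]
    rw [map_sum, Polynomial.finsetSum_coeff]
    exact Finset.sum_congr rfl fun e _ => hΦmon _ _ _
  refine ⟨Φ G, fun h0 => ?_, fun l => ?_, fun l i => ?_, fun l i => ?_, ?_⟩
  · obtain ⟨e, he⟩ := hc₁0
    apply he
    have h1 := hcoeff 0
    rw [h0] at h1
    have h2 := tf_sum_coeff (fun e => (c₁ e).coeff 0) e
    rw [← h1, coeff_zero] at h2
    exact h2.symm
  · rw [hcoeff]
    exact tf_sum_degree _
  · refine (tf_mem_iff _ _ _ _).2 fun x hx => ?_
    rw [hcoeff, tf_coeff]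
    have h1 := congrArg (fun p => Polynomial.coeff p l) (hc₁ (Sum.inl i) x hx)
    have hP'1 : ∀ j, P' (Sum.inl i) j = Polynomial.C (Z i j) := fun j => rfl
    simp only [hP'1, tfM_map, Polynomial.finsetSum_coeff, Polynomial.coeff_C_mul,
      Polynomial.coeff_zero] at h1
    exact h1
  · refine (tf_mem_iff _ _ _ _).2 fun x hx => ?_
    rw [hcoeff, tf_coeff]
    have h1 := congrArg (fun p => Polynomial.coeff p l) (hc₁ (Sum.inr (Sum.inl i)) x hx)
    have hP'1 : ∀ j, P' (Sum.inr (Sum.inl i)) j = Polynomial.C (Q i j) := fun j => rfl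
    simp only [hP'1, tfM_map, Polynomial.finsetSum_coeff, Polynomial.coeff_C_mul,
      Polynomial.coeff_zero] at h1
    exact h1
  · have h1 : G ∈ (Ideal.span {X 0 - C (P' (Sum.inr (Sum.inr ())) 0),
        X 1 - C (P' (Sum.inr (Sum.inr ())) 1)} :
        Ideal (MvPolynomial (Fin 2) (Polynomial F))) ^ τ := by
      refine (tf_mem_iff _ _ _ _).2 fun x hx => ?_
      rw [tf_coeff]
      exact hc₁ (Sum.inr (Sum.inr ())) x hx
    have h2 := Ideal.mem_map_of_mem Φ h1
    rw [Ideal.map_pow] at h2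
    refine Ideal.pow_right_mono ?_ _ h2
    rw [Ideal.map_span, Ideal.span_le]
    rintro _ ⟨g, hg, rfl⟩
    rcases hg with rfl | rfl
    · have h3 : Φ (X 0 - C (P' (Sum.inr (Sum.inr ())) 0)) = Polynomial.C (MvPolynomial.X 0) +
          Polynomial.C (MvPolynomial.C v0) * Polynomial.X := by
        have hP'2 : P' (Sum.inr (Sum.inr ())) 0 = -(Polynomial.C v0 * Polynomial.X) := rfl
        rw [hP'2]
        simp [Φ]
      rw [h3]
      exact Ideal.subset_span (Or.inl rfl)
    · have h3 : Φ (X 1 - C (P' (Sum.inr (Sum.inr ())) 1)) = Polynomial.C (MvPolynomial.X 1) := by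
        have hP'3 : P' (Sum.inr (Sum.inr ())) 1 = 0 := rfl
        rw [hP'3]
        simp [Φ]
      rw [h3]
      exact Ideal.subset_span (Or.inr rfl)

end ShghU
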